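import Pool.Agent.X152.Eq3.Core

/-!
# The side of an equilateral triangle tiled by a triangle with an angle of 120 degrees

Let `c² = a² + b² + a b` with `a, b` coprime. If the equilateral triangle of side `X` tiles into
copies of the triangle `(a, b, c)` then `X` is divisible by `a b`.

The proof. The angles of the tile are `α, β, 2 π / 3` with `α + β = π / 3`, and they are not
rational multiples of `π`. So there is a character `φ` on the group generated by the directions of
all the sides with `φ (-1) = -1`, `φ (e^{iα}) = x`, `φ (e^{iβ}) = -1 / x`, `φ (e^{2πi/3}) = 1` where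
`x = c / (b - a)`. The sum of `length * φ (direction)` over the three sides of a tile, all oriented
counterclockwise, is `0` for the tiles of one of the two orientations and `± (3 a b / (b - a)) xⁿ`
for the others. The sum over all tiles is the sum over the three sides of the big triangle, which is
`3 X`. Hence `X (b - a) = a b ∑ ± xⁿ`, and `c (b - a)` is prime to `a b`.
-/

set_option autoImplicit false

namespace Pool.Agent.Results.MP_9dc182_co.DivisibleByAB

open Pool.Agent.Helper549.Tri Pool.Agent.Helper549.Tri.Basic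

/-- the plane -/
abbrev Plane := EuclideanSpace ℝ (Fin 2)

/-- The closed triangle with the vertices `v 0`, `v 1`, `v 2`. -/
def triangle (v : Fin 3 → Plane) : Set Plane := convexHull ℝ (Set.range v)

/-- `v` are the vertices, in some order, of a triangle with the sides `a, b, c`. -/
def IsCopy (a b c : ℝ) (v : Fin 3 → Plane) : Prop :=
  ∃ σ : Equiv.Perm (Fin 3), dist (v (σ 1)) (v (σ 2)) = a ∧ dist (v (σ 2)) (v (σ 0)) = b ∧
    dist (v (σ 0)) (v (σ 1)) = c

/-- The triangle with the vertices `T` tiles into copies of the triangle with the sides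
`a, b, c`. -/
def Tiles (a b c : ℝ) (T : Fin 3 → Plane) : Prop :=
  ∃ (N : ℕ) (t : Fin N → Fin 3 → Plane), (∀ i, IsCopy a b c (t i)) ∧
    (⋃ i, triangle (t i)) = triangle T ∧
    Pairwise fun i j => Disjoint (interior (triangle (t i))) (interior (triangle (t j)))

/-- `X > 0` is equiconstructible by `(a, b, c)`: an equilateral triangle of side `X` tiles into
copies of the triangle with the sides `a, b, c`. -/
def Equiconstructible (a b c : ℕ) (X : ℝ) : Prop :=
  0 < X ∧ ∃ T : Fin 3 → Plane, (∀ i j, i ≠ j → dist (T i) (T j) = X) ∧ Tiles a b c T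

/-- `X` is divisible by `d`. -/
def DivisibleBy (X : ℝ) (d : ℕ) : Prop := ∃ m : ℕ, 0 < m ∧ X = m * d

theorem indep {v : Fin 3 → Plane} {x y z : ℝ} (h0 : dist (v 1) (v 2) = x)
    (h1 : dist (v 2) (v 0) = y) (h2 : dist (v 0) (v 1) = z) (hx : x < y + z) (hy : y < z + x)
    (hz : z < x + y) : AffineIndependent ℝ v := by
  rw [affineIndependent_iff_not_collinear]
  intro hcol
  have hr : Set.range v = {v 0, v 1, v 2} := by
    ext p
    constructor
    · rintro ⟨k, rfl⟩
      fin_cases k <;> simp
    · rintro (rfl | rfl | rfl)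
      · exact ⟨0, rfl⟩
      · exact ⟨1, rfl⟩
      · exact ⟨2, rfl⟩
  rw [hr] at hcol
  rcases hcol.wbtw_or_wbtw_or_wbtw with h | h | h
  · have := h.dist_add_dist
    rw [dist_comm (v 0) (v 2)] at this
    linarith
  · have := h.dist_add_dist
    rw [dist_comm (v 1) (v 0)] at this
    linarith
  · have := h.dist_add_dist
    rw [dist_comm (v 2) (v 1)] at this
    linarith

/-- the reduction to counterclockwise triangles in the complex plane -/
theorem reduce {N : ℕ} {A : Fin 3 → Plane} {P : Fin N → Fin 3 → Plane}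
    (hA : AffineIndependent ℝ A) (hP : ∀ i, AffineIndependent ℝ (P i)) {ℓ : Fin 3 → ℝ}
    (hl : ∀ i, ∃ σ : Equiv.Perm (Fin 3), ∀ k, dist (P i (σ (k + 2))) (P i (σ (k + 1))) = ℓ k)
    (hU : (⋃ i, triangle (P i)) = triangle A)
    (hD : Pairwise fun i j => Disjoint (interior (triangle (P i))) (interior (triangle (P j))))
    {X : ℝ} (hX : ∀ i j, i ≠ j → dist (A i) (A j) = X) :
    ∃ (T : Fin 3 → ℂ) (t : Fin N → Fin 3 → ℂ) (τ : Fin N → Equiv.Perm (Fin 3)),
      Dis N T t ∧ (∀ i m, len (t i) m = ℓ (τ i m)) ∧ ∀ k, len T k = X := by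
  obtain ⟨ρ, hρ⟩ := Setup.orient A hA
  choose r hr using fun i => Setup.orient (P i) (hP i)
  choose σ hσ using hl
  refine ⟨fun k => Setup.eC (A (ρ k)), fun i k => Setup.eC (P i (r i k)),
    fun i => (r i).trans (σ i).symm, ?_, ?_, ?_⟩
  · refine ⟨hρ, hr, ?_, ?_⟩
    · rw [Setup.hull_img A ρ]
      have hU' : (⋃ i, convexHull ℝ (Set.range (P i))) = convexHull ℝ (Set.range A) := hU
      rw [← hU', Set.image_iUnion]
      refine Set.iUnion_congr fun i => ?_
      exact Setup.hull_img (P i) (r i)
    · intro i j hij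
      rw [Setup.hull_img (P i) (r i), Setup.hull_img (P j) (r j)]
      have h1 : ∀ S : Set Plane, interior (Setup.eC '' S) = Setup.eC '' interior S :=
        fun S => (Setup.eC.toHomeomorph.image_interior S).symm
      rw [h1, h1]
      exact (Set.disjoint_image_iff Setup.eC.injective).2 (hD hij)
  · intro i m
    show ‖Setup.eC (P i (r i (m + 2))) - Setup.eC (P i (r i (m + 1)))‖ = _
    rw [← dist_eq_norm, Setup.eC.dist_map]
    obtain ⟨n, hn⟩ : ∃ n, n = (σ i).symm (r i m) := ⟨_, rfl⟩
    show _ = ℓ ((σ i).symm (r i m))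
    rw [← hn, ← hσ i n]
    have h1 : r i m = σ i n := by rw [hn]; simp
    have h2 := Setup.perm3 ((r i).trans (σ i).symm) m
    have h3 : ((r i).trans (σ i).symm) m = n := hn.symm
    rw [h3] at h2
    have h4 : ∀ k, r i k = σ i (((r i).trans (σ i).symm) k) := by
      intro k; simp
    rw [h4 (m + 2), h4 (m + 1)]
    rcases h2 with ⟨h5, h6⟩ | ⟨h5, h6⟩
    · rw [h5, h6]
    · rw [h5, h6, dist_comm]
  · intro k
    show ‖Setup.eC (A (ρ (k + 2))) - Setup.eC (A (ρ (k + 1)))‖ = _
    rw [← dist_eq_norm, Setup.eC.dist_map]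
    refine hX _ _ fun h => ?_
    exact (by decide : ∀ k : Fin 3, k + 2 ≠ k + 1) k (ρ.injective h)

theorem main (a b c : ℕ) (ha : 0 < a) (hb : 0 < b) (hc : 0 < c) (hab : a.Coprime b)
    (habc : c ^ 2 = a ^ 2 + b ^ 2 + a * b) (X : ℝ) (h : Equiconstructible a b c X) :
    DivisibleBy X (a * b) := by
  obtain ⟨hX0, A, hA, N, P, hP, hU, hD⟩ := h
  have haR : (0 : ℝ) < a := by exact_mod_cast ha
  have hbR : (0 : ℝ) < b := by exact_mod_cast hb
  have hcR : (0 : ℝ) < c := by exact_mod_cast hc
  have habcR : (c : ℝ) ^ 2 = a ^ 2 + b ^ 2 + a * b := by exact_mod_cast habc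
  have i1 : (c : ℝ) < a + b := by
    by_contra hn
    push Not at hn
    nlinarith [mul_pos haR hbR]
  have i2 : (a : ℝ) < b + c := by
    by_contra hn
    push Not at hn
    nlinarith [mul_pos haR hbR]
  have i3 : (b : ℝ) < c + a := by
    by_contra hn
    push Not at hn
    nlinarith [mul_pos haR hbR]
  have hAi : AffineIndependent ℝ A :=
    indep (hA 1 2 (by decide)) (hA 2 0 (by decide)) (hA 0 1 (by decide)) (by linarith)
      (by linarith) (by linarith)
  have hPi : ∀ i, AffineIndependent ℝ (P i) := by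
    intro i
    obtain ⟨σ, h0, h1, h2⟩ := hP i
    have h3 : AffineIndependent ℝ (fun k => P i (σ k)) :=
      indep (v := fun k => P i (σ k)) h0 h1 h2 i2 i3 i1
    exact (affineIndependent_equiv σ).1 h3
  have hl : ∀ i, ∃ σ : Equiv.Perm (Fin 3), ∀ k,
      dist (P i (σ (k + 2))) (P i (σ (k + 1))) = ![(a : ℝ), b, c] k := by
    intro i
    obtain ⟨σ, h0, h1, h2⟩ := hP i
    refine ⟨σ, fun k => ?_⟩
    fin_cases k
    · show dist (P i (σ 2)) (P i (σ 1)) = a
      rw [dist_comm]; exact h0
    · show dist (P i (σ 0)) (P i (σ 2)) = b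
      rw [dist_comm]; exact h1
    · show dist (P i (σ 1)) (P i (σ 0)) = c
      rw [dist_comm]; exact h2
  have hN : 0 < N := by
    rcases Nat.eq_zero_or_pos N with rfl | h
    · exfalso
      have h1 : A 0 ∈ triangle A := subset_convexHull ℝ _ ⟨0, rfl⟩
      rw [← hU] at h1
      simp at h1
    · exact h
  obtain ⟨T, t, τ, hdis, hlen, hT⟩ := reduce hAi hPi hl hU hD hA
  obtain ⟨m, hm⟩ := Pool.Agent.X152.Eq3.core hdis hN τ a b c ha hb hc hab habc hlen X hT
  refine ⟨m, ?_, hm⟩
  rcases Nat.eq_zero_or_pos m with rfl | h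
  · rw [hm] at hX0
    simp at hX0
  · exact h

/-- Answers to Q1 and Q2: both are true. -/
theorem result :
    (∀ a b c : ℕ, 0 < a → 0 < b → 0 < c → a.Coprime b → c ^ 2 = a ^ 2 + b ^ 2 + a * b →
      ∀ X : ℝ, Equiconstructible a b c X → DivisibleBy X (a * b)) ∧
    (∀ X : ℝ, Equiconstructible 5 16 19 X → DivisibleBy X 16) := by
  refine ⟨fun a b c ha hb hc hab habc X h => main a b c ha hb hc hab habc X h, fun X h => ?_⟩
  obtain ⟨m, hm, he⟩ := main 5 16 19 (by norm_num) (by norm_num) (by norm_num) (by norm_num)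
    (by norm_num) X h
  refine ⟨m * 5, by omega, ?_⟩
  rw [he]
  push_cast
  ring

end Pool.Agent.Results.MP_9dc182_co.DivisibleByAB
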